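import Pool.Agent.H48.SymDP.Irr.Model

/-!
# Case I: the resultant with a decomposable anticanonical curve

If the lattice of anticanonical sections contains a section whose zero curve splits into two
sections of the conic bundle, then the resultant of the pair of forms with this curve gives
the inequality `4 m + deg Θ ≤ δ + m deg Q`.
-/

set_option autoImplicit false

open Polynomial

namespace Pool.Agent.H48.SymDP

section General

variable {R : Type*} [CommRing R]

lemma hev_eq_eval (N : ℕ) (F : R[X]) (p q : R) :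
    hev N F p q = MvPolynomial.eval ![p, q] (F.homogenize N) := by
  simp only [hev, homogenize, map_sum, Finset.Nat.sum_antidiagonal_eq_sum_range_succ_mk]
  refine Finset.sum_congr rfl fun j _ => ?_
  rw [MvPolynomial.eval_monomial, Finsupp.update_eq_add_single (by simp),
    Finsupp.prod_add_index' (by simp) (by simp [pow_add]),
    Finsupp.prod_single_index (by simp), Finsupp.prod_single_index (by simp)]
  simp [mul_assoc]

lemma homogenize_pow_one (p : R[X]) (hp : p.natDegree ≤ 1) (j : ℕ) :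
    (p ^ j).homogenize j = (p.homogenize 1) ^ j := by
  induction j with
  | zero => simp
  | succ j ih =>
    rw [pow_succ, homogenize_mul _ _ (natDegree_pow_le_of_le j hp |>.trans (by simp)) hp, ih,
      pow_succ]

lemma hev_mul (M N : ℕ) (F G : R[X]) (hF : F.natDegree ≤ M) (hG : G.natDegree ≤ N) (p q : R) :
    hev (M + N) (F * G) p q = hev M F p q * hev N G p q := by
  simp only [hev_eq_eval, homogenize_mul _ _ hF hG, map_mul]

lemma hev_add (N : ℕ) (F G : R[X]) (p q : R) :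
    hev N (F + G) p q = hev N F p q + hev N G p q := by
  simp only [hev_eq_eval, homogenize_add, map_add]

lemma hev_C_mul (N : ℕ) (c : R) (F : R[X]) (p q : R) :
    hev N (C c * F) p q = c * hev N F p q := by
  simp only [hev_eq_eval, homogenize_C_mul, map_mul, MvPolynomial.eval_C]

lemma hev_C (N : ℕ) (c : R) (p q : R) : hev N (C c : R[X]) p q = c * q ^ N := by
  simp [hev_eq_eval]

lemma hev_scale (N : ℕ) (F : R[X]) (c p q : R) :
    hev N F (c * p) (c * q) = c ^ N * hev N F p q := by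
  simp only [hev, Finset.mul_sum]
  refine Finset.sum_congr rfl fun j hj => ?_
  have : j + (N - j) = N := by
    have := Finset.mem_range.1 hj
    omega
  calc _ = (c ^ j * c ^ (N - j)) * (algebraMap R R (F.coeff j) * p ^ j * q ^ (N - j)) := by ring
    _ = _ := by rw [← pow_add, this]

lemma hev_subst (N : ℕ) (A : R[X]) (p q : R[X]) (hp : p.natDegree ≤ 1) (hq : q.natDegree ≤ 1)
    (g₁ g₂ : R) :
    hev N (hev N A p q) g₁ g₂ = hev N A (hev 1 p g₁ g₂) (hev 1 q g₁ g₂) := by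
  have h : (hev N A p q).homogenize N =
      ∑ j ∈ Finset.range (N + 1), MvPolynomial.C (A.coeff j) * (p.homogenize 1) ^ j *
        (q.homogenize 1) ^ (N - j) := by
    simp only [hev, homogenize_finsetSum]
    refine Finset.sum_congr rfl fun j hj => ?_
    have hj' : j + (N - j) = N := by
      have := Finset.mem_range.1 hj
      omega
    rw [mul_assoc, algebraMap_eq, homogenize_C_mul, mul_assoc]
    congr 1
    rw [← homogenize_pow_one p hp, ← homogenize_pow_one q hq]
    have h1 : (p ^ j).natDegree ≤ j := by simpa using natDegree_pow_le_of_le j hp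
    have h2 : (q ^ (N - j)).natDegree ≤ N - j := by
      simpa using natDegree_pow_le_of_le (N - j) hq
    have := homogenize_mul (p ^ j) (q ^ (N - j)) h1 h2
    rwa [hj'] at this
  rw [hev_eq_eval, h]
  simp only [map_sum, map_mul, map_pow, MvPolynomial.eval_C, ← hev_eq_eval]
  rfl

/-- Value of the form attached to the triple `t` at `(p : q)`. -/
def Ev (P p q : R) (t : Fin 3 → R) : R := t 1 * p ^ 2 + t 0 * (p * q) + t 2 * (P * q ^ 2)

lemma Ev_mul (P E : R) (s t r : Fin 3 → R) (h : dsc P s s = E ^ 2) :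
    Ev P (E - s 0) (2 * s 1) t * Ev P (2 * s 2 * P) (E - s 0) r =
      2 * (E - s 0) ^ 2 * P * (dt s t (brk P s r) - E * dt s t r) := by
  simp only [dsc] at h
  simp [Ev, dt, brk]
  linear_combination (P * (- (E - s 0) ^ 2 * t 1 * r 2 - 2 * (E - s 0) * s 2 * t 0 * r 1 +
    (2 * (E - s 0) * (s 0 + E) + (s 0 * s 0 - 2 * P * (s 1 * s 2 + s 2 * s 1) - E ^ 2) -
      (E - s 0) ^ 2) * t 2 * r 1 - 2 * (E - s 0) * s 1 * t 2 * r 0)) * h

lemma Om_dvd [IsDomain R] {P lam Q σ E : R} {s t r : Fin 3 → R} (hQ : Q ≠ 0)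
    (hPQ : IsCoprime P Q) (hs : InT P lam Q σ s) (ht : InT P lam Q σ t) (hr : InT P lam Q σ r)
    (hE : Q ∣ E) : Q ^ 4 ∣ dt s t (brk P s r) - E * dt s t r := by
  obtain ⟨r', hr', hr'T⟩ := hs.exists_brk hQ hPQ hr
  obtain ⟨a, ha⟩ := InT.dt_dvd hPQ hs ht hr'T
  obtain ⟨b, hb⟩ := InT.dt_dvd hPQ hs ht hr
  obtain ⟨e, he⟩ := hE
  refine ⟨a - e * b, ?_⟩
  have h1 : dt s t (brk P s r) = Q * dt s t r' := by
    rw [hr']; simp [dt]; ring
  rw [h1, ha, hb, he]; ring

lemma mem_pow_aux {I : Ideal R} {x y : R} (hx : x ∈ I) (hy : y ∈ I) (m l : ℕ) (hl : l ≤ m) :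
    x ^ l * y ^ (m - l) ∈ I ^ m := by
  have h := Ideal.mul_mem_mul (Ideal.pow_mem_pow hx l) (Ideal.pow_mem_pow hy (m - l))
  rwa [← pow_add, Nat.add_sub_cancel' hl] at h

/-- Membership of the values of `A` in powers of an ideal. -/
lemma hev_mem {P : R} {A : R[X]} {m : ℕ} (hA : ∀ j, j ≤ m → P ^ (m - j) ∣ A.coeff j) {p q : R}
    {I : Ideal R} (h1 : p ^ 2 ∈ I) (h2 : p * q ∈ I) (h3 : P * q ^ 2 ∈ I) :
    hev (2 * m) A p q ∈ I ^ m := by
  rw [hev]
  refine Ideal.sum_mem _ fun j hj => ?_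
  have hj' : j ≤ 2 * m := by
    have := Finset.mem_range.1 hj
    omega
  rcases le_total m j with hmj | hmj
  · obtain ⟨l, rfl⟩ := Nat.exists_eq_add_of_le hmj
    obtain ⟨c, rfl⟩ := Nat.exists_eq_add_of_le (show l ≤ m by omega)
    have h := mem_pow_aux h1 h2 (l + c) l (by omega)
    have e1 : 2 * (l + c) - (l + c + l) = c := by omega
    have e2 : l + c - l = c := by omega
    rw [e2] at h
    have : algebraMap R R (A.coeff (l + c + l)) * p ^ (l + c + l) * q ^ (2 * (l + c) - (l + c + l))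
        = A.coeff (l + c + l) * ((p ^ 2) ^ l * (p * q) ^ c) := by
      rw [e1, Algebra.algebraMap_self, RingHom.id_apply]; ring
    rw [this]
    exact Ideal.mul_mem_left _ _ h
  · obtain ⟨a, ha⟩ := hA j hmj
    obtain ⟨c, rfl⟩ := Nat.exists_eq_add_of_le hmj
    have h := mem_pow_aux h2 h3 (j + c) j (by omega)
    have e1 : 2 * (j + c) - j = j + 2 * c := by omega
    have e2 : j + c - j = c := by omega
    rw [e2] at h ha
    have : algebraMap R R (A.coeff j) * p ^ j * q ^ (2 * (j + c) - j)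
        = a * ((p * q) ^ j * (P * q ^ 2) ^ c) := by
      rw [e1, Algebra.algebraMap_self, RingHom.id_apply, ha]; ring
    rw [this]
    exact Ideal.mul_mem_left _ _ h

/-- Membership of the values of `B` in powers of an ideal. -/
lemma hev_mem' {P : R} (B : R[X]) {m : ℕ} {p q : R}
    {I : Ideal R} (h1 : P * p ^ 2 ∈ I) (h2 : P * (p * q) ∈ I) (h3 : P * q ^ 2 ∈ I) :
    P ^ m * hev (2 * m) B p q ∈ I ^ m := by
  rw [hev, Finset.mul_sum]
  refine Ideal.sum_mem _ fun j hj => ?_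
  have hj' : j ≤ 2 * m := by
    have := Finset.mem_range.1 hj
    omega
  rcases le_total m j with hmj | hmj
  · obtain ⟨l, rfl⟩ := Nat.exists_eq_add_of_le hmj
    obtain ⟨c, rfl⟩ := Nat.exists_eq_add_of_le (show l ≤ m by omega)
    have h := mem_pow_aux h1 h2 (l + c) l (by omega)
    have e1 : 2 * (l + c) - (l + c + l) = c := by omega
    have e2 : l + c - l = c := by omega
    rw [e2] at h
    have : P ^ (l + c) * (algebraMap R R (B.coeff (l + c + l)) * p ^ (l + c + l) *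
        q ^ (2 * (l + c) - (l + c + l)))
        = B.coeff (l + c + l) * ((P * p ^ 2) ^ l * (P * (p * q)) ^ c) := by
      rw [e1, Algebra.algebraMap_self, RingHom.id_apply]; ring
    rw [this]
    exact Ideal.mul_mem_left _ _ h
  · obtain ⟨c, rfl⟩ := Nat.exists_eq_add_of_le hmj
    have h := mem_pow_aux h2 h3 (j + c) j (by omega)
    have e1 : 2 * (j + c) - j = j + 2 * c := by omega
    have e2 : j + c - j = c := by omega
    rw [e2] at h
    have : P ^ (j + c) * (algebraMap R R (B.coeff j) * p ^ j * q ^ (2 * (j + c) - j))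
        = B.coeff j * ((P * (p * q)) ^ j * (P * q ^ 2) ^ c) := by
      rw [e1, Algebra.algebraMap_self, RingHom.id_apply]; ring
    rw [this]
    exact Ideal.mul_mem_left _ _ h

/-- The ideal generated by the values of the forms `b l`. -/
def IE (P p q : R) (b : Fin 3 → Fin 3 → R) : Ideal R :=
  Ideal.span (Set.range fun l => Ev P p q (b l))

lemma IE_mul_dvd {P p q p' q' c : R} {b : Fin 3 → Fin 3 → R}
    (h : ∀ l l', c ∣ Ev P p q (b l) * Ev P p' q' (b l')) {m : ℕ} {x y : R}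
    (hx : x ∈ IE P p q b ^ m) (hy : y ∈ IE P p' q' b ^ m) : c ^ m ∣ x * y := by
  have h1 : IE P p q b * IE P p' q' b ≤ Ideal.span {c} := by
    rw [IE, IE, Ideal.span_mul_span', Ideal.span_le]
    rintro z ⟨_, ⟨l, rfl⟩, _, ⟨l', rfl⟩, rfl⟩
    exact Ideal.mem_span_singleton.2 (h l l')
  have h2 : x * y ∈ (Ideal.span {c}) ^ m := by
    have := Ideal.mul_mem_mul hx hy
    rw [← mul_pow] at this
    exact Ideal.pow_right_mono h1 m this
  rw [Ideal.span_singleton_pow] at h2
  exact Ideal.mem_span_singleton.1 h2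

end General

/-- The transformation rule of the forms at a point. -/
lemma Model.hev_rel {k : Type*} [Field k] {P : k[X]} {m : ℕ} {A : Fin 2 → k[X][X]} {lam : k}
    {Q σ Θ : k[X]} {B : Fin 2 → k[X][X]} (M : Model P m A lam Q σ Θ B) (i : Fin 2) (p q : k[X]) :
    Q ^ (2 * m) * hev (2 * m) (A i) p q = Θ * hev (2 * m) (B i)
      (q - σ * (p - C lam * q)) (Q * (p - C lam * q)) := by
  have h := congrArg (fun F => hev (2 * m) F (q - σ * (p - C lam * q)) (Q * (p - C lam * q)))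
    (M.rel i)
  simp only [hev_C_mul] at h
  rw [← h, hev_subst, ← hev_scale]
  · congr 1
    · simp [hev, Finset.sum_range_succ, coeff_one]
      ring
    · simp [hev, Finset.sum_range_succ]
      ring
  · compute_degree
  · compute_degree

/-- The degrees of the values of the forms. -/
lemma deg_hev {k : Type*} [Field k] {P : k[X]} (hP : P.natDegree = 3) {m δ D : ℕ} {A : k[X][X]}
    (hδ : ∀ j, A.coeff j ≠ 0 → (A.coeff j).natDegree + 2 * j ≤ δ ∧
      (A.coeff j).natDegree + j + m ≤ δ) (p q : k[X]) (h1 : (p ^ 2).natDegree ≤ D)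
    (h2 : p * q ≠ 0 → (p * q).natDegree + 2 ≤ D) (h3 : (P * q ^ 2).natDegree ≤ D)
    (hne : hev (2 * m) A p q ≠ 0) :
    (hev (2 * m) A p q).natDegree + 4 * m ≤ δ + m * D := by
  have key : ∀ j ∈ Finset.range (2 * m + 1),
      algebraMap k[X] k[X] (A.coeff j) * p ^ j * q ^ (2 * m - j) ≠ 0 →
      (algebraMap k[X] k[X] (A.coeff j) * p ^ j * q ^ (2 * m - j)).natDegree + 4 * m ≤
        δ + m * D := by
    intro j hj hne
    rw [Algebra.algebraMap_self, RingHom.id_apply] at hne ⊢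
    have hj' : j ≤ 2 * m := by
      have := Finset.mem_range.1 hj
      omega
    have hA : A.coeff j ≠ 0 := by
      rintro h
      simp [h] at hne
    obtain ⟨d1, d2⟩ := hδ j hA
    have hpj : p ^ j ≠ 0 := right_ne_zero_of_mul (left_ne_zero_of_mul hne)
    have hqj : q ^ (2 * m - j) ≠ 0 := right_ne_zero_of_mul hne
    have hnat : (A.coeff j * p ^ j * q ^ (2 * m - j)).natDegree =
        (A.coeff j).natDegree + j * p.natDegree + (2 * m - j) * q.natDegree := by
      rw [natDegree_mul (mul_ne_zero hA hpj) hqj, natDegree_mul hA hpj, natDegree_pow,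
        natDegree_pow]
    rw [hnat]
    rw [natDegree_pow] at h1
    rcases le_total m j with hmj | hmj
    · obtain ⟨l, rfl⟩ := Nat.exists_eq_add_of_le hmj
      obtain ⟨c, rfl⟩ := Nat.exists_eq_add_of_le (show l ≤ m by omega)
      have e1 : 2 * (l + c) - (l + c + l) = c := by omega
      rw [e1] at hqj ⊢
      have h2' : c * (p.natDegree + q.natDegree + 2) ≤ c * D := by
        rcases Nat.eq_zero_or_pos c with rfl | hc
        · simp
        · have hq : q ≠ 0 := fun h => hqj (by rw [h, zero_pow hc.ne'])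
          have hp : p ≠ 0 := fun h => hpj (by rw [h, zero_pow (by omega)])
          have := h2 (mul_ne_zero hp hq)
          rw [natDegree_mul hp hq] at this
          exact Nat.mul_le_mul_left _ this
      have h1' : l * (2 * p.natDegree) ≤ l * D := Nat.mul_le_mul_left _ h1
      nlinarith
    · obtain ⟨c, rfl⟩ := Nat.exists_eq_add_of_le hmj
      have e1 : 2 * (j + c) - j = j + 2 * c := by omega
      rw [e1] at hqj ⊢
      have h2' : j * (p.natDegree + q.natDegree + 2) ≤ j * D := by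
        rcases Nat.eq_zero_or_pos j with rfl | hc
        · simp
        · have hq : q ≠ 0 := fun h => hqj (by rw [h, zero_pow (by omega)])
          have hp : p ≠ 0 := fun h => hpj (by rw [h, zero_pow hc.ne'])
          have := h2 (mul_ne_zero hp hq)
          rw [natDegree_mul hp hq] at this
          exact Nat.mul_le_mul_left _ this
      have h3' : c * (3 + 2 * q.natDegree) ≤ c * D := by
        rcases Nat.eq_zero_or_pos c with rfl | hc
        · simp
        · have hq : q ≠ 0 := fun h => hqj (by rw [h, zero_pow (by omega)])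
          have hP0 : P ≠ 0 := by
            rintro rfl
            simp at hP
          rw [natDegree_mul hP0 (pow_ne_zero _ hq), hP, natDegree_pow] at h3
          exact Nat.mul_le_mul_left _ h3
      nlinarith
  have h4 : 4 * m ≤ δ + m * D := by
    rw [hev] at hne
    obtain ⟨j, hj, hj0⟩ := Finset.exists_ne_zero_of_sum_ne_zero hne
    have := key j hj hj0
    omega
  have h5 : (hev (2 * m) A p q).natDegree ≤ δ + m * D - 4 * m := by
    rw [hev]
    refine natDegree_sum_le_of_forall_le _ _ fun j hj => ?_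
    by_cases h0 : algebraMap k[X] k[X] (A.coeff j) * p ^ j * q ^ (2 * m - j) = 0
    · rw [h0]; simp
    · have := key j hj h0
      omega
  omega

/-- The standard basis, adapted to the degrees. -/
noncomputable def bX {k : Type*} [Field k] : Fin 3 → Fin 3 → k[X] :=
  ![![X ^ 2, 0, 0], ![0, 1, 0], ![0, 0, 1]]

lemma natDegree_add_le_of {k : Type*} [Field k] {f g : k[X]} {n : ℕ} (hf : f.natDegree ≤ n)
    (hg : g.natDegree ≤ n) : (f + g).natDegree ≤ n :=
  (natDegree_add_le _ _).trans (max_le hf hg)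

lemma natDegree_sub_le_of {k : Type*} [Field k] {f g : k[X]} {n : ℕ} (hf : f.natDegree ≤ n)
    (hg : g.natDegree ≤ n) : (f - g).natDegree ≤ n :=
  (natDegree_sub_le _ _).trans (max_le hf hg)

lemma crs_deg {k : Type*} [Field k] {s t : Fin 3 → k[X]} {c : ℕ}
    (h0 : (s 0).natDegree ≤ c + 2) (h1 : (s 1).natDegree ≤ c) (h2 : (s 2).natDegree ≤ c)
    (t0 : (t 0).natDegree ≤ 2) (t1 : (t 1).natDegree ≤ 0) (t2 : (t 2).natDegree ≤ 0) :
    (s 1 * t 2 - s 2 * t 1).natDegree ≤ c ∧ (s 2 * t 0 - s 0 * t 2).natDegree ≤ c + 2 ∧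
      (s 0 * t 1 - s 1 * t 0).natDegree ≤ c + 2 :=
  ⟨natDegree_sub_le_of (natDegree_mul_le_of_le h1 t2) (natDegree_mul_le_of_le h2 t1),
    natDegree_sub_le_of (natDegree_mul_le_of_le h2 t0)
      ((natDegree_mul_le_of_le h0 t2).trans (by omega)),
    natDegree_sub_le_of ((natDegree_mul_le_of_le h0 t1).trans (by omega))
      (natDegree_mul_le_of_le h1 t0)⟩

lemma Om_deg {k : Type*} [Field k] {P E : k[X]} (hP : P.natDegree = 3) {s t r : Fin 3 → k[X]}
    {q : ℕ} (h0 : (s 0).natDegree ≤ q)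
    (h12 : (s 1 = 0 ∧ s 2 = 0) ∨ ∃ c, q = c + 2 ∧ (s 1).natDegree ≤ c ∧ (s 2).natDegree ≤ c)
    (hE : E.natDegree ≤ q)
    (t0 : (t 0).natDegree ≤ 2) (t1 : (t 1).natDegree ≤ 0) (t2 : (t 2).natDegree ≤ 0)
    (r0 : (r 0).natDegree ≤ 2) (r1 : (r 1).natDegree ≤ 0) (r2 : (r 2).natDegree ≤ 0) :
    (dt s t (brk P s r) - E * dt s t r).natDegree ≤ 2 * q := by
  rcases h12 with ⟨h1, h2⟩ | ⟨c, rfl, h1, h2⟩
  · have : dt s t (brk P s r) - E * dt s t r =
        (s 0 * s 0) * (t 2 * r 1 + t 1 * r 2) + E * (s 0 * (t 2 * r 1 - t 1 * r 2)) := by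
      simp [dt, brk, h1, h2]; ring
    rw [this]
    refine natDegree_add_le_of ?_ ?_
    · refine (natDegree_mul_le_of_le (natDegree_mul_le_of_le h0 h0)
        (natDegree_add_le_of (natDegree_mul_le_of_le t2 r1) (natDegree_mul_le_of_le t1 r2))).trans
          (by omega)
    · refine (natDegree_mul_le_of_le hE (natDegree_mul_le_of_le h0
        (natDegree_sub_le_of (natDegree_mul_le_of_le t2 r1)
          (natDegree_mul_le_of_le t1 r2)))).trans (by omega)
  · obtain ⟨b1, b2, b3⟩ := crs_deg h0 h1 h2 t0 t1 t2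
    obtain ⟨c1, c2, c3⟩ := crs_deg h0 h1 h2 r0 r1 r2
    have hP2 : (2 * P : k[X]).natDegree ≤ 3 := by
      refine (natDegree_mul_le_of_le (m := 0) (n := 3) ?_ hP.le).trans (by omega)
      exact (natDegree_ofNat 2).le
    refine natDegree_sub_le_of ?_ ?_
    · simp only [dt, brk]
      refine natDegree_add_le_of (natDegree_add_le_of ?_ ?_) ?_
      · refine (natDegree_mul_le_of_le b1 (n := 3 + c) ?_).trans (by omega)
        simpa using natDegree_mul_le_of_le hP2 c1
      · refine (natDegree_mul_le_of_le b2 (n := c + 2) ?_).trans (by omega)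
        simpa [natDegree_neg, -neg_sub] using c3
      · refine (natDegree_mul_le_of_le b3 (n := c + 2) ?_).trans (by omega)
        simpa [natDegree_neg, -neg_sub] using c2
    · refine (natDegree_mul_le_of_le hE (n := c + 2) ?_).trans (by omega)
      simp only [dt]
      refine natDegree_add_le_of (natDegree_add_le_of ?_ ?_) ?_
      · exact (natDegree_mul_le_of_le b1 r0).trans (by omega)
      · exact (natDegree_mul_le_of_le b2 r1).trans (by omega)
      · exact (natDegree_mul_le_of_le b3 r2).trans (by omega)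

lemma bX_deg {k : Type*} [Field k] (l : Fin 3) : ((bX l : Fin 3 → k[X]) 0).natDegree ≤ 2 ∧
    ((bX l : Fin 3 → k[X]) 1).natDegree ≤ 0 ∧ ((bX l : Fin 3 → k[X]) 2).natDegree ≤ 0 := by
  fin_cases l <;> simp [bX]

lemma Ev_Pe {R : Type*} [CommRing R] (P lam Q σ p q : R) :
    Ev P p q (Pe P lam Q σ 0) = P * (Q * (p - lam * q)) ^ 2 ∧
    Ev P p q (Pe P lam Q σ 1) = P * ((q - σ * (p - lam * q)) * (Q * (p - lam * q))) ∧
    Ev P p q (Pe P lam Q σ 2) = P * (q - σ * (p - lam * q)) ^ 2 := by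
  refine ⟨?_, ?_, ?_⟩
  · simp [Ev, Pe]; ring
  · simp [Ev, Pe]; ring
  · simp [Ev, Pe]; ring

lemma natDegree_le_of_lt_add_one {k : Type*} [Field k] {f : k[X]} {n : ℕ}
    (h : f.degree < ((n + 1 : ℕ) : WithBot ℕ)) : f.natDegree ≤ n := by
  by_cases hf : f = 0
  · simp [hf]
  · rw [degree_eq_natDegree hf] at h
    have : f.natDegree < n + 1 := by exact_mod_cast h
    omega

/-- The main case: both resultants are nonzero. -/
lemma caseI_main {k : Type*} [Field k] [CharZero k] {P : k[X]}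
    (hP : P.natDegree = 3) {m : ℕ} {A : Fin 2 → k[X][X]} {lam : k} {Q σ Θ : k[X]}
    {B : Fin 2 → k[X][X]} (M : Model P m A lam Q σ Θ B) {δ : ℕ} (hδ : DegLE m A δ)
    (s : Fin 3 → k[X]) (hs : InT P (C lam) Q σ s)
    (h0 : (s 0).natDegree ≤ Q.natDegree)
    (h12 : (s 1 = 0 ∧ s 2 = 0) ∨
      ∃ c, Q.natDegree = c + 2 ∧ (s 1).natDegree ≤ c ∧ (s 2).natDegree ≤ c)
    (E : k[X]) (hQE : Q ∣ E) (hE : E.natDegree ≤ Q.natDegree) (hdsc : dsc P s s = E ^ 2)
    (hμ : E - s 0 ≠ 0) (i j : Fin 2)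
    (hi : hev (2 * m) (A i) (E - s 0) (2 * s 1) ≠ 0)
    (hj : hev (2 * m) (A j) (2 * s 2 * P) (E - s 0) ≠ 0) :
    4 * m + Θ.natDegree ≤ δ + m * Q.natDegree := by
  have hP0 : P ≠ 0 := by
    rintro rfl
    simp at hP
  have h2 : (2 : k[X]) ≠ 0 := two_ne_zero
  set μ := E - s 0 with hμdef
  have hc0 : 2 * μ ^ 2 * P ≠ 0 := mul_ne_zero (mul_ne_zero h2 (pow_ne_zero _ hμ)) hP0
  -- divisibility by the first factor
  have d1 : (2 * μ ^ 2 * P) ^ m ∣
      hev (2 * m) (A i) μ (2 * s 1) * hev (2 * m) (A j) (2 * s 2 * P) μ := by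
    let b1 : Fin 3 → Fin 3 → k[X] := ![![1, 0, 0], ![0, 1, 0], ![0, 0, 1]]
    have hmem : ∀ (i : Fin 2) (p q : k[X]), hev (2 * m) (A i) p q ∈ IE P p q b1 ^ m := by
      intro i p q
      refine hev_mem (M.dvd_coeff i) ?_ ?_ ?_
      · exact Ideal.subset_span ⟨1, by simp [Ev, b1]⟩
      · exact Ideal.subset_span ⟨0, by simp [Ev, b1]⟩
      · exact Ideal.subset_span ⟨2, by simp [Ev, b1]⟩
    refine IE_mul_dvd (b := b1) (fun l l' => ?_) (hmem i _ _) (hmem j _ _)
    rw [Ev_mul P E s _ _ hdsc]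
    exact Dvd.intro _ rfl
  obtain ⟨N, hN⟩ := d1
  -- divisibility on the modification
  have d2 : (2 * μ ^ 2 * P * Q ^ 4) ^ m ∣
      (P ^ m * hev (2 * m) (B i) (2 * s 1 - σ * (μ - C lam * (2 * s 1)))
        (Q * (μ - C lam * (2 * s 1)))) *
      (P ^ m * hev (2 * m) (B j) (μ - σ * (2 * s 2 * P - C lam * μ))
        (Q * (2 * s 2 * P - C lam * μ))) := by
    have hmem : ∀ (i : Fin 2) (p q : k[X]), P ^ m * hev (2 * m) (B i)
        (q - σ * (p - C lam * q)) (Q * (p - C lam * q)) ∈ IE P p q (Pe P (C lam) Q σ) ^ m := by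
      intro i p q
      obtain ⟨e0, e1, e2⟩ := Ev_Pe P (C lam) Q σ p q
      refine hev_mem' _ ?_ ?_ ?_
      · exact Ideal.subset_span ⟨2, e2⟩
      · exact Ideal.subset_span ⟨1, e1⟩
      · exact Ideal.subset_span ⟨0, e0⟩
    refine IE_mul_dvd (b := Pe P (C lam) Q σ) (fun l l' => ?_) (hmem i _ _) (hmem j _ _)
    rw [Ev_mul P E s _ _ hdsc]
    exact mul_dvd_mul_left _ (Om_dvd M.Q_ne M.coprime_Q hs (InT_Pe _ _ _ _ _) (InT_Pe _ _ _ _ _)
      hQE)
  obtain ⟨Z, hZ⟩ := d2
  have r1 := M.hev_rel i μ (2 * s 1)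
  have r2 := M.hev_rel j (2 * s 2 * P) μ
  have hNZ : P ^ (2 * m) * N = Θ ^ 2 * Z := by
    have hne : (2 * μ ^ 2 * P * Q ^ 4) ^ m ≠ 0 :=
      pow_ne_zero _ (mul_ne_zero hc0 (pow_ne_zero _ M.Q_ne))
    refine mul_left_cancel₀ hne ?_
    calc (2 * μ ^ 2 * P * Q ^ 4) ^ m * (P ^ (2 * m) * N)
        = P ^ (2 * m) * (Q ^ (2 * m) * Q ^ (2 * m)) * ((2 * μ ^ 2 * P) ^ m * N) := by
          rw [mul_pow _ (Q ^ 4)]; ring
      _ = P ^ (2 * m) * (Q ^ (2 * m) * hev (2 * m) (A i) μ (2 * s 1)) *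
          (Q ^ (2 * m) * hev (2 * m) (A j) (2 * s 2 * P) μ) := by rw [← hN]; ring
      _ = Θ ^ 2 * ((P ^ m * hev (2 * m) (B i) (2 * s 1 - σ * (μ - C lam * (2 * s 1)))
        (Q * (μ - C lam * (2 * s 1)))) *
      (P ^ m * hev (2 * m) (B j) (μ - σ * (2 * s 2 * P - C lam * μ))
        (Q * (2 * s 2 * P - C lam * μ)))) := by rw [r1, r2]; ring
      _ = _ := by rw [hZ]; ring
  have hN0 : N ≠ 0 := by
    rintro rfl
    rw [mul_zero] at hN
    exact mul_ne_zero hi hj hN
  have hΘN : Θ ^ 2 ∣ N := by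
    have hcop : IsCoprime (Θ ^ 2) (P ^ (2 * m)) := (M.coprime_Th.symm).pow
    exact hcop.dvd_of_dvd_mul_left ⟨Z, hNZ⟩
  -- degrees
  obtain ⟨l₁, hl₁⟩ := Finite.exists_max (fun l : Fin 3 => (Ev P μ (2 * s 1) (bX l)).degree)
  obtain ⟨l₂, hl₂⟩ := Finite.exists_max (fun l : Fin 3 => (Ev P (2 * s 2 * P) μ (bX l)).degree)
  have ev0 : ∀ p q : k[X], Ev P p q (bX 0) = X ^ 2 * (p * q) := fun p q => by simp [Ev, bX]
  have ev1 : ∀ p q : k[X], Ev P p q (bX 1) = p ^ 2 := fun p q => by simp [Ev, bX]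
  have ev2 : ∀ p q : k[X], Ev P p q (bX 2) = P * q ^ 2 := fun p q => by simp [Ev, bX]
  have n1 : Ev P μ (2 * s 1) (bX l₁) ≠ 0 := by
    intro h
    have := hl₁ 1
    simp only [h, degree_zero, le_bot_iff, degree_eq_bot, ev1] at this
    exact pow_ne_zero _ hμ this
  have n2 : Ev P (2 * s 2 * P) μ (bX l₂) ≠ 0 := by
    intro h
    have := hl₂ 2
    simp only [h, degree_zero, le_bot_iff, degree_eq_bot, ev2] at this
    exact mul_ne_zero hP0 (pow_ne_zero _ hμ) this
  have hX2 : ∀ f : k[X], f ≠ 0 → (X ^ 2 * f).natDegree = f.natDegree + 2 := by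
    intro f hf
    rw [natDegree_mul (pow_ne_zero _ X_ne_zero) hf, natDegree_X_pow, add_comm]
  have g1 := deg_hev hP (D := (Ev P μ (2 * s 1) (bX l₁)).natDegree) (hδ i) μ (2 * s 1)
    (by rw [← ev1 μ (2 * s 1)]; exact natDegree_le_natDegree (hl₁ 1))
    (fun h => by rw [← hX2 _ h, ← ev0 μ (2 * s 1)]; exact natDegree_le_natDegree (hl₁ 0))
    (by rw [← ev2 μ (2 * s 1)]; exact natDegree_le_natDegree (hl₁ 2)) hi
  have g2 := deg_hev hP (D := (Ev P (2 * s 2 * P) μ (bX l₂)).natDegree) (hδ j) (2 * s 2 * P) μ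
    (by rw [← ev1 (2 * s 2 * P) μ]; exact natDegree_le_natDegree (hl₂ 1))
    (fun h => by rw [← hX2 _ h, ← ev0 (2 * s 2 * P) μ]; exact natDegree_le_natDegree (hl₂ 0))
    (by rw [← ev2 (2 * s 2 * P) μ]; exact natDegree_le_natDegree (hl₂ 2)) hj
  have g3 := congrArg natDegree (Ev_mul P E s (bX l₁) (bX l₂) hdsc)
  have hOm0 : dt s (bX l₁) (brk P s (bX l₂)) - E * dt s (bX l₁) (bX l₂) ≠ 0 := by
    intro h
    have := Ev_mul P E s (bX l₁) (bX l₂) hdsc
    rw [h, mul_zero] at this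
    exact mul_ne_zero n1 n2 this
  rw [← hμdef, natDegree_mul n1 n2, natDegree_mul hc0 hOm0] at g3
  obtain ⟨t0, t1, t2⟩ := bX_deg (k := k) l₁
  obtain ⟨u0, u1, u2⟩ := bX_deg (k := k) l₂
  have g4 := Om_deg hP h0 h12 hE t0 t1 t2 u0 u1 u2
  have g5 := congrArg natDegree hN
  rw [natDegree_mul hi hj, natDegree_mul (pow_ne_zero _ hc0) hN0, natDegree_pow] at g5
  have g6 := natDegree_le_of_dvd hΘN hN0
  rw [natDegree_pow] at g6
  have g7 : m * ((Ev P μ (2 * s 1) (bX l₁)).natDegree +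
      (Ev P (2 * s 2 * P) μ (bX l₂)).natDegree) ≤
      m * ((2 * μ ^ 2 * P).natDegree + 2 * Q.natDegree) := by
    refine Nat.mul_le_mul_left _ ?_
    rw [g3]
    omega
  rw [mul_add, mul_add] at g7
  have g8 : m * (2 * Q.natDegree) = 2 * (m * Q.natDegree) := by ring
  omega

/-- Case I. -/
theorem caseI {k : Type} [Field k] [CharZero k] {P : k[X]}
    (hP : P.natDegree = 3) {m : ℕ} {A : Fin 2 → k[X][X]} {lam : k} {Q σ Θ : k[X]}
    {B : Fin 2 → k[X][X]} (M : Model P m A lam Q σ Θ B) {δ : ℕ} (hδ : DegLE m A δ)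
    (htop : ∃ i, (A i).coeff (2 * m) ≠ 0)
    (hbez : ∃ (C₀ C₁ : k[X][X]) (R : k[X]), R ≠ 0 ∧ C₀ * A 0 + C₁ * A 1 = C R)
    (s : Fin 3 → k[X]) (hs : InT P (C lam) Q σ s)
    (hs0 : (s 0).degree < ((Q.natDegree + 1 : ℕ) : WithBot ℕ))
    (hs1 : (s 1).degree + 1 < (Q.natDegree : WithBot ℕ))
    (hs2 : (s 2).degree + 1 < (Q.natDegree : WithBot ℕ))
    (e : k) (he : e ≠ 0) (hdsc : dsc P s s = C (e ^ 2) * Q ^ 2) :
    4 * m + Θ.natDegree ≤ δ + m * Q.natDegree := by
  have hP0 : P ≠ 0 := by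
    rintro rfl
    simp at hP
  have h0 : (s 0).natDegree ≤ Q.natDegree := natDegree_le_of_lt_add_one hs0
  have hlt : ∀ f : k[X], f.degree + 1 < (Q.natDegree : WithBot ℕ) →
      f = 0 ∨ f.natDegree + 2 ≤ Q.natDegree := by
    intro f hf
    by_cases hf0 : f = 0
    · exact Or.inl hf0
    · rw [degree_eq_natDegree hf0] at hf
      have : f.natDegree + 1 < Q.natDegree := by exact_mod_cast hf
      exact Or.inr (by omega)
  have h12 : (s 1 = 0 ∧ s 2 = 0) ∨
      ∃ c, Q.natDegree = c + 2 ∧ (s 1).natDegree ≤ c ∧ (s 2).natDegree ≤ c := by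
    rcases hlt _ hs1 with h1 | h1 <;> rcases hlt _ hs2 with h2 | h2
    · exact Or.inl ⟨h1, h2⟩
    · exact Or.inr ⟨Q.natDegree - 2, by omega, by simp [h1], by omega⟩
    · exact Or.inr ⟨Q.natDegree - 2, by omega, by omega, by simp [h2]⟩
    · exact Or.inr ⟨Q.natDegree - 2, by omega, by omega, by omega⟩
  obtain ⟨E, hE2, hQE, hEdeg, hμ⟩ : ∃ E : k[X], dsc P s s = E ^ 2 ∧ Q ∣ E ∧
      E.natDegree ≤ Q.natDegree ∧ E - s 0 ≠ 0 := by
    by_cases h : C e * Q - s 0 = 0
    · refine ⟨-(C e * Q), by rw [hdsc, C_pow]; ring, ⟨-C e, by ring⟩, ?_, ?_⟩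
      · rw [natDegree_neg]; exact natDegree_C_mul_le _ _
      · intro h'
        have h3 : 2 * (C e * Q) = 0 := by linear_combination h - h'
        have h4 : C e * Q ≠ 0 := mul_ne_zero (C_ne_zero.2 he) M.Q_ne
        exact mul_ne_zero two_ne_zero h4 h3
    · exact ⟨C e * Q, by rw [hdsc, C_pow]; ring, ⟨C e, by ring⟩, natDegree_C_mul_le _ _, h⟩
  by_contra hcon
  have key : ∀ i j, hev (2 * m) (A i) (E - s 0) (2 * s 1) = 0 ∨
      hev (2 * m) (A j) (2 * s 2 * P) (E - s 0) = 0 := by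
    intro i j
    by_contra h
    push Not at h
    exact hcon (caseI_main hP M hδ s hs h0 h12 E hQE hEdeg hE2 hμ i j h.1 h.2)
  -- a common zero contradicts the relation of Bezout type
  have nobez : ∀ p q : k[X], q ≠ 0 → ¬ ∀ i, hev (2 * m) (A i) p q = 0 := by
    intro p q hq hall
    obtain ⟨C₀, C₁, R, hR, hb⟩ := hbez
    have h := congrArg (fun F => hev (max C₀.natDegree C₁.natDegree + 2 * m) F p q) hb
    simp only [hev_add, hev_C] at h
    rw [hev_mul _ _ _ _ (le_max_left _ _) (M.natDegree_le 0),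
      hev_mul _ _ _ _ (le_max_right _ _) (M.natDegree_le 1), hall 0, hall 1] at h
    simp only [mul_zero, add_zero] at h
    exact mul_ne_zero hR (pow_ne_zero _ hq) h.symm
  by_cases hall : ∀ j, hev (2 * m) (A j) (2 * s 2 * P) (E - s 0) = 0
  · exact nobez _ _ hμ hall
  · push Not at hall
    obtain ⟨j, hj⟩ := hall
    have hall' : ∀ i, hev (2 * m) (A i) (E - s 0) (2 * s 1) = 0 := fun i =>
      (key i j).resolve_right hj
    by_cases h1 : s 1 = 0
    · obtain ⟨i, hi⟩ := htop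
      have h := hall' i
      rw [h1, mul_zero, hev, Finset.sum_range_succ, Finset.sum_eq_zero] at h
      · simp only [zero_add, Algebra.algebraMap_self, RingHom.id_apply, Nat.sub_self, pow_zero,
          mul_one] at h
        exact mul_ne_zero hi (pow_ne_zero _ hμ) h
      · intro j hj
        have := Finset.mem_range.1 hj
        rw [zero_pow (by omega), mul_zero]
    · exact nobez _ _ (mul_ne_zero two_ne_zero h1) hall'

end Pool.Agent.H48.SymDP
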